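import Pool.Agent.Lib.MP_b9e19b_mp.Small.Spec

set_option autoImplicit false

/-!
# Three bodies

No configuration of three unit masses satisfies the necessary conditions.
-/

namespace RelEqN.Small.N3M

/-- The collinear case, `x` and `y` are the distances to the middle point. -/
lemma mid (x y : ℝ) (hx : 0 < x) (hy : 0 < y)
    (h1 : ((x ^ 3)⁻¹ - 1 / 3) * x = ((y ^ 3)⁻¹ - 1 / 3) * y)
    (h2 : ((x ^ 3)⁻¹ - 1 / 3) * x + (((x + y) ^ 3)⁻¹ - 1 / 3) * (x + y) = 0) :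
    (x ^ 3)⁻¹ + (y ^ 3)⁻¹ + ((x + y) ^ 3)⁻¹ = 17 / 10 := by
  have hxy : x = y := by
    have h3 : (y - x) * (3 * (x + y) + x ^ 2 * y ^ 2) = 0 := by
      field_simp at h1
      linear_combination h1
    rcases mul_eq_zero.1 h3 with h | h
    · linarith
    · have : 0 < 3 * (x + y) + x ^ 2 * y ^ 2 := by positivity
      linarith
  subst hxy
  have h4 : x ^ 3 = 5 / 4 := by
    have h5 : x + x = 2 * x := by ring
    rw [h5] at h2
    field_simp at h2
    nlinarith [h2]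
  have h6 : (x + x) ^ 3 = 10 := by
    have : (x + x) ^ 3 = 8 * x ^ 3 := by ring
    rw [this, h4]
    norm_num
  rw [h6, h4]
  norm_num

lemma wt_self {N : ℕ} (q : Fin N → ℂ) (j : Fin N) : wt q j j = 0 := by
  simp [wt]

lemma wt_comm {N : ℕ} (q : Fin N → ℂ) (j k : Fin N) : wt q j k = wt q k j := by
  simp only [wt, norm_sub_rev]

/-- The norm of `u² + v²` for an equilateral triangle `0, u, v`. -/
lemma sq_sum (u v : ℂ) (r : ℝ) (hu : ‖u‖ = r) (hv : ‖v‖ = r) (huv : ‖u - v‖ = r) :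
    ‖u ^ 2 + v ^ 2‖ ^ 2 = r ^ 4 := by
  have e1 : u.re ^ 2 + u.im ^ 2 = r ^ 2 := by
    rw [← hu, ← Complex.normSq_eq_norm_sq, Complex.normSq_apply]
    ring
  have e2 : v.re ^ 2 + v.im ^ 2 = r ^ 2 := by
    rw [← hv, ← Complex.normSq_eq_norm_sq, Complex.normSq_apply]
    ring
  have e3 : (u.re - v.re) ^ 2 + (u.im - v.im) ^ 2 = r ^ 2 := by
    rw [← huv, ← Complex.normSq_eq_norm_sq, Complex.normSq_apply]
    simp only [Complex.sub_re, Complex.sub_im]
    ring
  have e4 : 2 * (u.re * v.re + u.im * v.im) = r ^ 2 := by linarith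
  rw [← Complex.normSq_eq_norm_sq, Complex.normSq_apply]
  simp only [Complex.add_re, Complex.add_im, pow_two, Complex.mul_re, Complex.mul_im]
  have e5 : (u.re * u.re - u.im * u.im + (v.re * v.re - v.im * v.im)) *
        (u.re * u.re - u.im * u.im + (v.re * v.re - v.im * v.im)) +
      (u.re * u.im + u.im * u.re + (v.re * v.im + v.im * v.re)) *
        (u.re * u.im + u.im * u.re + (v.re * v.im + v.im * v.re)) =
      (u.re ^ 2 + u.im ^ 2) ^ 2 + (v.re ^ 2 + v.im ^ 2) ^ 2 +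
        (2 * (u.re * v.re + u.im * v.im)) ^ 2
        - 2 * ((u.re ^ 2 + u.im ^ 2) * (v.re ^ 2 + v.im ^ 2)) := by ring
  rw [e5, e1, e2, e4]
  ring

lemma norm_cc (u v : ℂ) (r : ℝ) (hr : 0 < r) (h3 : (r ^ 3)⁻¹ = 1 / 3) (hu : ‖u‖ = r) (hv : ‖v‖ = r)
    (huv : ‖u - v‖ = r) :
    ‖(((‖u‖ ^ 5)⁻¹ : ℝ) : ℂ) * u ^ 2 + (((‖v‖ ^ 5)⁻¹ : ℝ) : ℂ) * v ^ 2‖ ^ 2 = 1 / 9 := by
  rw [hu, hv, ← mul_add, norm_mul, mul_pow, sq_sum u v r hu hv huv, Complex.norm_real,
    Real.norm_eq_abs, sq_abs]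
  have h5 : (r ^ 5)⁻¹ ^ 2 * r ^ 4 = (r ^ 3)⁻¹ ^ 2 := by
    field_simp
  rw [h5, h3]
  norm_num

end RelEqN.Small.N3M

namespace RelEqN.Small.Spec

open RelEqN.Small.N3M

theorem stmtN3 : StmtN3 := by
  intro q h
  obtain ⟨⟨hinj, heq⟩, htr, hlo, hhi, hpos⟩ := h
  have e0 := heq 0
  have e1 := heq 1
  have e2 := heq 2
  rw [Fin.sum_univ_three] at e0 e1 e2
  simp only [wt_self, Complex.ofReal_zero, zero_mul, zero_add, add_zero, wt_comm q 1 0, wt_comm q 2 0,
    wt_comm q 2 1] at e0 e1 e2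
  have hT : T q = 2 * (wt q 0 1 + wt q 0 2 + wt q 1 2) := by
    simp only [T, Fin.sum_univ_three, wt_self, wt_comm q 1 0, wt_comm q 2 0, wt_comm q 2 1]
    ring
  have h01 : q 0 - q 1 ≠ 0 := sub_ne_zero.2 fun h => by simpa using hinj h
  have h02 : q 0 - q 2 ≠ 0 := sub_ne_zero.2 fun h => by simpa using hinj h
  have h12 : q 1 - q 2 ≠ 0 := sub_ne_zero.2 fun h => by simpa using hinj h
  obtain ⟨u, hu⟩ : ∃ u, u = q 0 - q 1 := ⟨_, rfl⟩
  obtain ⟨v, hv⟩ : ∃ v, v = q 0 - q 2 := ⟨_, rfl⟩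
  have hvu : q 1 - q 2 = v - u := by rw [hu, hv]; ring
  have hu0 : u ≠ 0 := by rw [hu]; exact h01
  have hv0 : v ≠ 0 := by rw [hv]; exact h02
  have hvu0 : v - u ≠ 0 := by rw [← hvu]; exact h12
  have hs : q 0 + q 1 + q 2 = 0 := by
    linear_combination -e0 - e1 - e2
  have f1 : ((wt q 0 1 - 1 / 3 : ℝ) : ℂ) * u + ((wt q 0 2 - 1 / 3 : ℝ) : ℂ) * v = 0 := by
    rw [hu, hv]
    push_cast
    linear_combination e0 + (1 / 3) * hs
  have f2 : -((wt q 0 1 - 1 / 3 : ℝ) : ℂ) * u + ((wt q 1 2 - 1 / 3 : ℝ) : ℂ) * (v - u) = 0 := by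
    rw [← hvu, hu]
    push_cast
    linear_combination e1 + (1 / 3) * hs
  have w01 : wt q 0 1 = (‖u‖ ^ 3)⁻¹ := by rw [hu]; rfl
  have w02 : wt q 0 2 = (‖v‖ ^ 3)⁻¹ := by rw [hv]; rfl
  have w12 : wt q 1 2 = (‖v - u‖ ^ 3)⁻¹ := by rw [← hvu]; rfl
  by_cases hcol : ∃ t : ℝ, v = (t : ℂ) * u
  · obtain ⟨t, ht⟩ := hcol
    have ht0 : t ≠ 0 := by
      intro h
      rw [h] at ht
      apply hv0
      rw [ht]
      simp
    have ht1 : t ≠ 1 := by
      intro h
      rw [h] at ht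
      apply hvu0
      rw [ht]
      simp
    have hρ : 0 < ‖u‖ := norm_pos_iff.2 hu0
    have g1 : (wt q 0 1 - 1 / 3) + (wt q 0 2 - 1 / 3) * t = 0 := by
      have : (((wt q 0 1 - 1 / 3) + (wt q 0 2 - 1 / 3) * t : ℝ) : ℂ) * u = 0 := by
        rw [ht] at f1
        push_cast at f1 ⊢
        linear_combination f1
      rcases mul_eq_zero.1 this with h | h
      · exact_mod_cast h
      · exact absurd h hu0
    have g2 : -(wt q 0 1 - 1 / 3) + (wt q 1 2 - 1 / 3) * (t - 1) = 0 := by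
      have : ((-(wt q 0 1 - 1 / 3) + (wt q 1 2 - 1 / 3) * (t - 1) : ℝ) : ℂ) * u = 0 := by
        rw [ht] at f2
        push_cast at f2 ⊢
        linear_combination f2
      rcases mul_eq_zero.1 this with h | h
      · exact_mod_cast h
      · exact absurd h hu0
    have n02 : ‖v‖ = |t| * ‖u‖ := by
      rw [ht, norm_mul, Complex.norm_real, Real.norm_eq_abs]
    have n12 : ‖v - u‖ = |t - 1| * ‖u‖ := by
      have : v - u = ((t - 1 : ℝ) : ℂ) * u := by rw [ht]; push_cast; ring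
      rw [this, norm_mul, Complex.norm_real, Real.norm_eq_abs]
    have key : wt q 0 1 + wt q 0 2 + wt q 1 2 = 17 / 10 := by
      rw [w01, w02, n02] at g1
      rw [w01, w12, n12] at g2
      rw [w01, w02, w12, n02, n12]
      rcases lt_trichotomy t 0 with hneg | h0 | hpos'
      · -- the point 0 is in the middle
        rw [abs_of_neg hneg] at *
        rw [abs_of_neg (by linarith : t - 1 < 0)] at *
        have hx : -(t - 1) * ‖u‖ = ‖u‖ + -t * ‖u‖ := by ring
        rw [hx] at g2 ⊢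
        refine mid ‖u‖ (-t * ‖u‖) hρ (by nlinarith) ?_ ?_
        · linear_combination ‖u‖ * g1
        · linear_combination (-‖u‖) * g2
      · exact absurd h0 ht0
      · rcases lt_trichotomy t 1 with hlt | h1 | hgt
        · -- the point 2 is in the middle
          rw [abs_of_pos hpos'] at *
          rw [abs_of_neg (by linarith : t - 1 < 0)] at *
          have hm := mid (t * ‖u‖) (-(t - 1) * ‖u‖) (by positivity) (by nlinarith)
          have hx : t * ‖u‖ + -(t - 1) * ‖u‖ = ‖u‖ := by ring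
          rw [hx] at hm
          have := hm (by linear_combination ‖u‖ * g1 + ‖u‖ * g2) (by linear_combination ‖u‖ * g1)
          linarith
        · exact absurd h1 ht1
        · -- the point 1 is in the middle
          rw [abs_of_pos hpos'] at *
          rw [abs_of_pos (by linarith : 0 < t - 1)] at *
          have hm := mid ‖u‖ ((t - 1) * ‖u‖) hρ (by nlinarith)
          have hx : ‖u‖ + (t - 1) * ‖u‖ = t * ‖u‖ := by ring
          rw [hx] at hm
          have := hm (by linear_combination (-‖u‖) * g2) (by linear_combination ‖u‖ * g1)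
          linarith
    rw [hT, key] at htr
    norm_num at htr
  · -- equilateral
    have real0 : ∀ A B : ℝ, (A : ℂ) * u + (B : ℂ) * v = 0 → A = 0 ∧ B = 0 := by
      intro A B hAB
      have hB : B = 0 := by
        by_contra hB
        apply hcol
        refine ⟨-(A / B), ?_⟩
        have hBc : (B : ℂ) ≠ 0 := by exact_mod_cast hB
        push_cast
        field_simp
        linear_combination hAB
      refine ⟨?_, hB⟩
      rw [hB] at hAB
      simp only [Complex.ofReal_zero, zero_mul, add_zero] at hAB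
      rcases mul_eq_zero.1 hAB with h | h
      · exact_mod_cast h
      · exact absurd h hu0
    obtain ⟨a1, a2⟩ := real0 _ _ f1
    have a3 : wt q 1 2 - 1 / 3 = 0 := by
      rw [a1] at f2
      simp only [Complex.ofReal_zero, neg_zero, zero_mul, zero_add] at f2
      rcases mul_eq_zero.1 f2 with h | h
      · exact_mod_cast h
      · exact absurd h hvu0
    have b1 : wt q 0 1 = 1 / 3 := by linarith
    have b2 : wt q 0 2 = 1 / 3 := by linarith
    have b3 : wt q 1 2 = 1 / 3 := by linarith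
    have hru : 0 < ‖u‖ := norm_pos_iff.2 hu0
    have eqn : ∀ z w : ℂ, (‖z‖ ^ 3)⁻¹ = 1 / 3 → (‖w‖ ^ 3)⁻¹ = 1 / 3 → ‖z‖ = ‖w‖ := by
      intro z w hz hw
      have h3 : ‖z‖ ^ 3 = ‖w‖ ^ 3 := by
        rw [← inv_inj, hz, hw]
      exact (pow_left_inj₀ (norm_nonneg _) (norm_nonneg _) (by norm_num)).1 h3
    have c1 : (‖u‖ ^ 3)⁻¹ = 1 / 3 := by rw [← w01]; exact b1
    have c2 : (‖v‖ ^ 3)⁻¹ = 1 / 3 := by rw [← w02]; exact b2
    have c3 : (‖v - u‖ ^ 3)⁻¹ = 1 / 3 := by rw [← w12]; exact b3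
    have nv : ‖v‖ = ‖u‖ := eqn v u c2 c1
    have nvu : ‖v - u‖ = ‖u‖ := eqn (v - u) u c3 c1
    have nuv : ‖u - v‖ = ‖u‖ := by rw [norm_sub_rev]; exact nvu
    have hd : ∀ j : Fin 3, dd q j = 2 / 3 := by
      intro j
      fin_cases j <;>
        simp [dd, Fin.sum_univ_three, wt_self, wt_comm q 1 0, wt_comm q 2 0, wt_comm q 2 1, b1, b2, b3] <;>
        norm_num
    have d0 : ‖cc q 0‖ ^ 2 = 1 / 9 := by
      have e : cc q 0 = (((‖u‖ ^ 5)⁻¹ : ℝ) : ℂ) * u ^ 2 + (((‖v‖ ^ 5)⁻¹ : ℝ) : ℂ) * v ^ 2 := by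
        rw [hu, hv]
        simp [cc, wu, Fin.sum_univ_three]
      rw [e]
      exact norm_cc u v ‖u‖ hru c1 rfl nv nuv
    have d1 : ‖cc q 1‖ ^ 2 = 1 / 9 := by
      have e : cc q 1 = (((‖-u‖ ^ 5)⁻¹ : ℝ) : ℂ) * (-u) ^ 2 +
          (((‖v - u‖ ^ 5)⁻¹ : ℝ) : ℂ) * (v - u) ^ 2 := by
        rw [← hvu, hu, neg_sub]
        simp [cc, wu, Fin.sum_univ_three]
      rw [e]
      refine norm_cc (-u) (v - u) ‖u‖ hru c1 (norm_neg u) nvu ?_
      have : -u - (v - u) = -v := by ring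
      rw [this, norm_neg]
      exact nv
    have d2 : ‖cc q 2‖ ^ 2 = 1 / 9 := by
      have e : cc q 2 = (((‖-v‖ ^ 5)⁻¹ : ℝ) : ℂ) * (-v) ^ 2 +
          (((‖u - v‖ ^ 5)⁻¹ : ℝ) : ℂ) * (u - v) ^ 2 := by
        have h21 : u - v = q 2 - q 1 := by rw [hu, hv]; ring
        rw [h21, hv, neg_sub]
        simp [cc, wu, Fin.sum_univ_three]
      rw [e]
      refine norm_cc (-v) (u - v) ‖u‖ hru c1 ?_ nuv ?_
      · rw [norm_neg]; exact nv
      · have : -v - (u - v) = -u := by ring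
        rw [this, norm_neg]
    have hw : ∑ j, ∑ k, wt q j k ^ 2 = 2 / 3 := by
      simp only [Fin.sum_univ_three, wt_self, wt_comm q 1 0, wt_comm q 2 0, wt_comm q 2 1, b1, b2, b3]
      norm_num
    have hT2 : T q = 2 := by
      rw [hT, b1, b2, b3]
      norm_num
    have hp4 : p4 q = -7 / 2 := by
      unfold p4
      rw [hw, hT2]
      simp only [hd]
      rw [Fin.sum_univ_three (fun j => ‖cc q j‖ ^ 2), d0, d1, d2]
      simp
      norm_num
    have hsS : sS q = 1 := by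
      unfold sS
      rw [hT2]
      norm_num
    rw [hp4, hsS] at hlo
    norm_num at hlo

end RelEqN.Small.Spec
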